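import Mathlib

/-!
# Counting lemmas for random sets in elementary abelian 2-groups (helper869)

`cardSmall`   : the number of subsets of size at most 4 of a set of size `R` is at most `(R+1)^4`.
`greedy`      : if more than `(4r+1)^4` distinct vectors are all sums of at most four of the `a i`,
                then `r` of them have representations with successive new indices (pivots).
`cardSol`     : the number of `a : ι → V` solving `r` equations with pivots is `|V|^(|ι|-r)`.
-/

namespace Pool.Agent.Helper869_BG

open Finset

theorem cardSmall {ι : Type*} [DecidableEq ι] (R : Finset ι) :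
    ((R.powerset).filter (fun s => s.card ≤ 4)).card ≤ (R.card + 1) ^ 4 := by
  classical
  have hsub : (R.powerset).filter (fun s => s.card ≤ 4) ⊆
      (range 5).biUnion (fun i => R.powersetCard i) := by
    intro s hs
    rw [mem_filter, mem_powerset] at hs
    rw [mem_biUnion]
    exact ⟨s.card, by rw [mem_range]; omega, by rw [mem_powersetCard]; exact ⟨hs.1, rfl⟩⟩
  refine (card_le_card hsub).trans (card_biUnion_le.trans ?_)
  have h1 : ∀ i ∈ range 5, (R.powersetCard i).card ≤ R.card ^ i := by
    intro i _
    rw [card_powersetCard]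
    exact Nat.choose_le_pow _ _
  refine (sum_le_sum h1).trans ?_
  simp only [sum_range_succ, sum_range_zero]
  nlinarith [Nat.zero_le (R.card ^ 3), Nat.zero_le (R.card ^ 2), Nat.zero_le R.card]

theorem greedy {V ι γ : Type*} [AddCommGroup V] [DecidableEq V] [DecidableEq ι] [Fintype γ]
    [Nonempty γ] [Nonempty ι]
    (a : ι → V) (c : γ → V) (hc : Function.Injective c)
    (hrep : ∀ g, ∃ s : Finset ι, s.card ≤ 4 ∧ ∑ i ∈ s, a i = c g)
    (r : ℕ) (hr : (4 * r + 1) ^ 4 < Fintype.card γ) :
    ∃ (g : ℕ → γ) (s : ℕ → Finset ι) (p : ℕ → ι),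
      ∀ t < r, (s t).card ≤ 4 ∧ ∑ i ∈ s t, a i = c (g t) ∧ p t ∈ s t ∧ ∀ τ < t, p t ∉ s τ := by
  classical
  induction r with
  | zero =>
      exact ⟨fun _ => Classical.arbitrary γ, fun _ => ∅, fun _ => Classical.arbitrary ι,
        fun t ht => absurd ht (Nat.not_lt_zero t)⟩
  | succ r ih =>
      have hr' : (4 * r + 1) ^ 4 < Fintype.card γ :=
        lt_of_le_of_lt (Nat.pow_le_pow_left (by omega) 4) hr
      obtain ⟨g, s, p, h⟩ := ih hr'
      set R : Finset ι := (range r).biUnion s with hR
      have hRc : R.card ≤ 4 * r := by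
        refine card_biUnion_le.trans ?_
        refine (sum_le_sum (fun t ht => (h t (mem_range.1 ht)).1)).trans ?_
        simp [mul_comm]
      set Q : Finset V := ((R.powerset).filter (fun s => s.card ≤ 4)).image
        (fun s => ∑ i ∈ s, a i) with hQ
      have hQc : Q.card ≤ (4 * r + 1) ^ 4 :=
        card_image_le.trans ((cardSmall R).trans (Nat.pow_le_pow_left (by omega) 4))
      have hex : ∃ g0 : γ, c g0 ∉ Q := by
        by_contra hcon
        push Not at hcon
        have : Fintype.card γ ≤ Q.card := by
          rw [← card_univ]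
          exact card_le_card_of_injOn c (fun g _ => hcon g) (hc.injOn)
        omega
      obtain ⟨g0, hg0⟩ := hex
      obtain ⟨s0, hs0, hsum⟩ := hrep g0
      have hns : ¬ s0 ⊆ R := by
        intro hsub
        apply hg0
        rw [hQ, mem_image]
        exact ⟨s0, by rw [mem_filter, mem_powerset]; exact ⟨hsub, hs0⟩, hsum⟩
      obtain ⟨p0, hp0, hp0R⟩ := not_subset.1 hns
      refine ⟨Function.update g r g0, Function.update s r s0, Function.update p r p0, ?_⟩
      intro t ht
      rcases Nat.lt_succ_iff_lt_or_eq.1 ht with hlt | heq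
      · have hne : t ≠ r := hlt.ne
        obtain ⟨h1, h2, h3, h4⟩ := h t hlt
        simp only [Function.update_of_ne hne]
        refine ⟨h1, h2, h3, fun τ hτ => ?_⟩
        have hne' : τ ≠ r := by omega
        rw [Function.update_of_ne hne']
        exact h4 τ hτ
      · subst heq
        simp only [Function.update_self]
        refine ⟨hs0, hsum, hp0, fun τ hτ => ?_⟩
        have hne' : τ ≠ t := hτ.ne
        rw [Function.update_of_ne hne']
        intro hmem
        exact hp0R (by rw [hR, mem_biUnion]; exact ⟨τ, mem_range.2 hτ, hmem⟩)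

theorem cardSol {V ι : Type*} [AddCommGroup V] [Fintype V] [DecidableEq V] [Fintype ι]
    [DecidableEq ι] (r : ℕ) (s : Fin r → Finset ι) (u : Fin r → V) (p : Fin r → ι)
    (hp : ∀ t, p t ∈ s t) (hp' : ∀ t τ, τ < t → p t ∉ s τ) :
    (univ.filter (fun a : ι → V => ∀ t, ∑ i ∈ s t, a i = u t)).card * Fintype.card V ^ r
      ≤ Fintype.card V ^ Fintype.card ι := by
  classical
  have hinj : Function.Injective p := by
    intro t τ h
    rcases lt_trichotomy t τ with h1 | h1 | h1
    · exact absurd (h ▸ hp t) (hp' τ t h1)
    · exact h1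
    · exact absurd (h ▸ hp τ) (hp' t τ h1)
  set P : Finset ι := univ.image p with hP
  have hPc : P.card = r := by
    rw [hP, card_image_of_injective _ hinj, card_univ, Fintype.card_fin]
  have hrle : r ≤ Fintype.card ι := by
    rw [← hPc]; exact card_le_univ P
  have hle : (univ.filter (fun a : ι → V => ∀ t, ∑ i ∈ s t, a i = u t)).card
      ≤ Fintype.card ({i // i ∉ P} → V) := by
    rw [← card_univ (α := {i // i ∉ P} → V)]
    refine card_le_card_of_injOn (fun a i => a i.1) (fun _ _ => mem_univ _) ?_
    intro a ha b hb hab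
    have ha' := (mem_filter.1 (mem_coe.1 ha)).2
    have hb' := (mem_filter.1 (mem_coe.1 hb)).2
    have hoff : ∀ i, i ∉ P → a i = b i := fun i hi => congrFun hab ⟨i, hi⟩
    have hon : ∀ n : ℕ, ∀ t : Fin r, t.1 = n → a (p t) = b (p t) := by
      intro n
      induction n using Nat.strong_induction_on with
      | _ n ih =>
        intro t ht
        have hrest : ∀ i ∈ (s t).erase (p t), a i = b i := by
          intro i hi
          rw [mem_erase] at hi
          by_cases hiP : i ∈ P
          · rw [hP, mem_image] at hiP
            obtain ⟨τ, -, hτ⟩ := hiP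
            rcases lt_trichotomy τ t with h1 | h1 | h1
            · rw [← hτ]
              exact ih τ.1 (by rw [← ht]; exact h1) τ rfl
            · exact absurd (by rw [← hτ, h1]) hi.1
            · exact absurd (hτ ▸ hi.2) (hp' τ t h1)
          · exact hoff i hiP
        have e1 := ha' t
        have e2 := hb' t
        rw [← add_sum_erase _ _ (hp t)] at e1 e2
        have e3 : ∑ x ∈ (s t).erase (p t), a x = ∑ x ∈ (s t).erase (p t), b x :=
          sum_congr rfl hrest
        rw [e3, ← e2] at e1
        exact add_right_cancel e1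
    funext i
    by_cases hiP : i ∈ P
    · rw [hP, mem_image] at hiP
      obtain ⟨τ, -, hτ⟩ := hiP
      rw [← hτ]
      exact hon τ.1 τ rfl
    · exact hoff i hiP
  have hcard : Fintype.card ({i // i ∉ P} → V) = Fintype.card V ^ (Fintype.card ι - r) := by
    rw [Fintype.card_fun]
    congr 1
    rw [Fintype.card_subtype_compl (fun i => i ∈ P), Fintype.card_coe, hPc]
  rw [hcard] at hle
  calc _ ≤ Fintype.card V ^ (Fintype.card ι - r) * Fintype.card V ^ r :=
        Nat.mul_le_mul_right _ hle
    _ = Fintype.card V ^ Fintype.card ι := by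
        rw [← pow_add, Nat.sub_add_cancel hrle]

end Pool.Agent.Helper869_BG
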