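import Pool.Agent.Helper869_BG.Count

/-!
# Existence of large sets whose fourfold sumset contains no large subspace (helper869)
-/

namespace Pool.Agent.Helper869_BG

open Finset

/-- `a : ι → V` is bad (for the dimension `d`) if some `d`-dimensional subspace consists of sums of
at most four of the vectors `a i`. -/
def Bad {V ι : Type*} [AddCommGroup V] [Module (ZMod 2) V] (d : ℕ) (a : ι → V) : Prop :=
  ∃ b : Fin d → V, Function.Injective (fun c : Fin d → ZMod 2 => ∑ j, c j • b j) ∧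
    ∀ c : Fin d → ZMod 2, ∃ s : Finset ι, s.card ≤ 4 ∧ ∑ i ∈ s, a i = ∑ j, c j • b j

theorem cardBad {V ι : Type*} [AddCommGroup V] [Module (ZMod 2) V] [Fintype V] [DecidableEq V]
    [Fintype ι] [DecidableEq ι] [Nonempty ι] (d r : ℕ) (hr : (4 * r + 1) ^ 4 < 2 ^ d) :
    Nat.card {a : ι → V // Bad d a} * Fintype.card V ^ r ≤
      (Fintype.card V ^ d * ((2 ^ d) ^ r * ((Fintype.card ι + 1) ^ 4) ^ r)) *
        Fintype.card V ^ Fintype.card ι := by
  classical
  set T : Finset (Finset ι) := ((univ : Finset ι).powerset).filter (fun s => s.card ≤ 4) with hT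
  have hTc : T.card ≤ (Fintype.card ι + 1) ^ 4 := by
    have := cardSmall (univ : Finset ι)
    rwa [card_univ] at this
  set D : Finset ((Fin d → V) × (Fin r → (Fin d → ZMod 2)) × (Fin r → Finset ι)) :=
    univ ×ˢ (univ ×ˢ Fintype.piFinset (fun _ : Fin r => T)) with hD
  have hDc : D.card ≤ Fintype.card V ^ d * ((2 ^ d) ^ r * ((Fintype.card ι + 1) ^ 4) ^ r) := by
    rw [hD, card_product, card_product, card_univ, card_univ, Fintype.card_fun, Fintype.card_fin,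
      Fintype.card_fun, Fintype.card_fun, Fintype.card_fin, Fintype.card_fin, ZMod.card,
      Fintype.card_piFinset]
    refine Nat.mul_le_mul_left _ (Nat.mul_le_mul_left _ ?_)
    rw [prod_const, card_univ, Fintype.card_fin]
    exact Nat.pow_le_pow_left hTc r
  set F : ((Fin d → V) × (Fin r → (Fin d → ZMod 2)) × (Fin r → Finset ι)) → Finset (ι → V) :=
    fun x => if (∃ p : Fin r → ι, (∀ t, p t ∈ x.2.2 t) ∧ ∀ t τ, τ < t → p t ∉ x.2.2 τ) then
      univ.filter (fun a : ι → V => ∀ t, ∑ i ∈ x.2.2 t, a i = ∑ j, x.2.1 t j • x.1 j) else ∅ with hF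
  have hFc : ∀ x ∈ D, (F x).card * Fintype.card V ^ r ≤ Fintype.card V ^ Fintype.card ι := by
    intro x _
    rw [hF]
    by_cases hx : ∃ p : Fin r → ι, (∀ t, p t ∈ x.2.2 t) ∧ ∀ t τ, τ < t → p t ∉ x.2.2 τ
    · simp only [hx, if_true]
      obtain ⟨p, hp, hp'⟩ := hx
      exact cardSol r x.2.2 (fun t => ∑ j, x.2.1 t j • x.1 j) p hp hp'
    · simp only [hx, if_false, card_empty, zero_mul]
      exact Nat.zero_le _
  have hsub : (univ.filter (fun a : ι → V => Bad d a)) ⊆ D.biUnion F := by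
    intro a ha
    obtain ⟨b, hb, hrep⟩ := (mem_filter.1 ha).2
    obtain ⟨g, s, p, h⟩ := greedy a (fun c : Fin d → ZMod 2 => ∑ j, c j • b j) hb hrep r
      (by rw [Fintype.card_fun, ZMod.card, Fintype.card_fin]; exact hr)
    rw [mem_biUnion]
    refine ⟨(b, fun t => g t.1, fun t => s t.1), ?_, ?_⟩
    · rw [hD]
      simp only [mem_product, mem_univ, true_and, Fintype.mem_piFinset]
      intro t
      rw [hT, mem_filter]
      exact ⟨by simp, (h t.1 t.2).1⟩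
    · rw [hF]
      have hx : ∃ p : Fin r → ι, (∀ t, p t ∈ s t.1) ∧ ∀ t τ : Fin r, τ < t → p t ∉ s τ.1 :=
        ⟨fun t => p t.1, fun t => (h t.1 t.2).2.2.1, fun t τ hτ => (h t.1 t.2).2.2.2 τ.1 hτ⟩
      simp only [hx, if_true, mem_filter, mem_univ, true_and]
      intro t
      exact (h t.1 t.2).2.1
  have hcard : Nat.card {a : ι → V // Bad d a} = (univ.filter (fun a : ι → V => Bad d a)).card := by
    rw [Nat.card_eq_fintype_card, Fintype.card_subtype]
  rw [hcard]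
  calc (univ.filter (fun a : ι → V => Bad d a)).card * Fintype.card V ^ r
      ≤ (D.biUnion F).card * Fintype.card V ^ r := Nat.mul_le_mul_right _ (card_le_card hsub)
    _ ≤ (∑ x ∈ D, (F x).card) * Fintype.card V ^ r := Nat.mul_le_mul_right _ card_biUnion_le
    _ = ∑ x ∈ D, (F x).card * Fintype.card V ^ r := by rw [sum_mul]
    _ ≤ ∑ _x ∈ D, Fintype.card V ^ Fintype.card ι := sum_le_sum hFc
    _ = D.card * Fintype.card V ^ Fintype.card ι := by rw [sum_const, smul_eq_mul]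
    _ ≤ _ := Nat.mul_le_mul_right _ hDc

theorem injLower (M N : ℕ) (h : 2 * N ^ 2 ≤ M) (hN : 1 ≤ N) : M ^ N ≤ 2 * M.descFactorial N := by
  have hNM : N ≤ M := by nlinarith
  have h1 : (M + 1 - N) ^ N ≤ M.descFactorial N := Nat.pow_sub_le_descFactorial M N
  refine le_trans ?_ (Nat.mul_le_mul_left 2 h1)
  have hM0 : (0 : ℝ) < (M : ℝ) := by
    have : 0 < M := by omega
    exact_mod_cast this
  have hN1 : (1 : ℝ) ≤ (N : ℝ) := by exact_mod_cast hN
  have hR : ((M : ℝ)) ^ N ≤ 2 * ((M : ℝ) + 1 - N) ^ N := by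
    have hNMr : (N : ℝ) ≤ M := by exact_mod_cast hNM
    have hb : (1 : ℝ) + N * (-((N - 1) / M)) ≤ (1 + (-((N - 1 : ℝ) / M))) ^ N := by
      apply one_add_mul_le_pow
      have : ((N : ℝ) - 1) / M ≤ 1 := by
        rw [div_le_one hM0]; linarith
      linarith
    have hsmall : (N : ℝ) * ((N - 1) / M) ≤ 1 / 2 := by
      have h2 : (2 : ℝ) * (N : ℝ) ^ 2 ≤ M := by exact_mod_cast h
      rw [← mul_div_assoc, div_le_div_iff₀ hM0 (by norm_num)]
      nlinarith
    have hhalf : (1 / 2 : ℝ) ≤ (1 + (-((N - 1 : ℝ) / M))) ^ N := by linarith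
    have hfac : ((M : ℝ) + 1 - N) = M * (1 + (-((N - 1 : ℝ) / M))) := by
      field_simp
      ring
    rw [hfac, mul_pow]
    have hp : (0 : ℝ) < (M : ℝ) ^ N := pow_pos hM0 N
    nlinarith
  have hcast : ((M + 1 - N : ℕ) : ℝ) = (M : ℝ) + 1 - N := by
    rw [Nat.cast_sub (by omega)]
    push_cast
    ring
  have : ((M ^ N : ℕ) : ℝ) ≤ ((2 * (M + 1 - N) ^ N : ℕ) : ℝ) := by
    push_cast [hcast]
    exact hR
  exact_mod_cast this

theorem exists_good (m ν d : ℕ) (hm : 2 ≤ m) (hA : (8 * m + 1) ^ 4 < 2 ^ d)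
    (hB : 3 * d + 8 * ν + 9 ≤ 2 * m) (hC : 2 * ν + 1 ≤ m) :
    ∃ a : Fin (2 ^ ν) → (Fin m → ZMod 2), Function.Injective a ∧ ¬ Bad d a := by
  classical
  by_contra hcon
  push Not at hcon
  have hne : Nonempty (Fin (2 ^ ν)) := ⟨⟨0, Nat.pow_pos (by norm_num)⟩⟩
  have hVc : Fintype.card (Fin m → ZMod 2) = 2 ^ m := by
    rw [Fintype.card_fun, ZMod.card, Fintype.card_fin]
  have hbad := cardBad (V := Fin m → ZMod 2) (ι := Fin (2 ^ ν)) d (2 * m)
    (by have : 4 * (2 * m) + 1 = 8 * m + 1 := by ring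
        rw [this]; exact hA)
  rw [hVc, Fintype.card_fin] at hbad
  have hinj : Nat.card {a : Fin (2 ^ ν) → (Fin m → ZMod 2) // Function.Injective a} =
      (2 ^ m).descFactorial (2 ^ ν) := by
    rw [Nat.card_congr (Equiv.subtypeInjectiveEquivEmbedding _ _), Nat.card_eq_fintype_card,
      Fintype.card_embedding_eq, hVc, Fintype.card_fin]
  have hle : Nat.card {a : Fin (2 ^ ν) → (Fin m → ZMod 2) // Function.Injective a} ≤
      Nat.card {a : Fin (2 ^ ν) → (Fin m → ZMod 2) // Bad d a} :=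
    Nat.card_le_card_of_injective (fun x => ⟨x.1, hcon x.1 x.2⟩) (by
      intro x y h
      exact Subtype.ext (by simpa using h))
  have hlow := injLower (2 ^ m) (2 ^ ν) (by
    rw [← pow_mul, ← pow_succ']
    exact Nat.pow_le_pow_right (by norm_num) (by omega)) (Nat.one_le_two_pow)
  rw [← hinj] at hlow
  set B := Nat.card {a : Fin (2 ^ ν) → (Fin m → ZMod 2) // Bad d a} with hBdef
  set J := Nat.card {a : Fin (2 ^ ν) → (Fin m → ZMod 2) // Function.Injective a} with hJdef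
  -- the data count
  have hN4 : ((2 ^ ν + 1) ^ 4) ^ (2 * m) ≤ 2 ^ ((4 * ν + 4) * (2 * m)) := by
    have h1 : (2 ^ ν + 1) ^ 4 ≤ 2 ^ (4 * ν + 4) := by
      have h2 : 2 ^ ν + 1 ≤ 2 ^ (ν + 1) := by
        have := Nat.one_le_two_pow (n := ν)
        rw [pow_succ]; omega
      calc (2 ^ ν + 1) ^ 4 ≤ (2 ^ (ν + 1)) ^ 4 := Nat.pow_le_pow_left h2 4
        _ = 2 ^ (4 * ν + 4) := by rw [← pow_mul]; congr 1; ring
    calc ((2 ^ ν + 1) ^ 4) ^ (2 * m) ≤ (2 ^ (4 * ν + 4)) ^ (2 * m) := Nat.pow_le_pow_left h1 _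
      _ = 2 ^ ((4 * ν + 4) * (2 * m)) := by rw [← pow_mul]
  have hdata : (2 ^ m) ^ d * ((2 ^ d) ^ (2 * m) * ((2 ^ ν + 1) ^ 4) ^ (2 * m)) ≤
      2 ^ (m * d + (d * (2 * m) + (4 * ν + 4) * (2 * m))) := by
    rw [pow_add, pow_add, ← pow_mul, ← pow_mul]
    exact Nat.mul_le_mul_left _ (Nat.mul_le_mul_left _ hN4)
  have hexp : m * d + (d * (2 * m) + (4 * ν + 4) * (2 * m)) + 2 ≤ m * (2 * m) := by
    have h3 : m * d + (d * (2 * m) + (4 * ν + 4) * (2 * m)) = m * (3 * d + 8 * ν + 8) := by ring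
    have h4 : m * (3 * d + 8 * ν + 8) + m * 1 ≤ m * (2 * m) := by
      rw [← mul_add]
      exact Nat.mul_le_mul_left m (by omega)
    omega
  have hbad2 : B * (2 ^ m) ^ (2 * m) ≤
      2 ^ (m * d + (d * (2 * m) + (4 * ν + 4) * (2 * m))) * (2 ^ m) ^ (2 ^ ν) :=
    hbad.trans (Nat.mul_le_mul_right _ hdata)
  have hV0 : 0 < (2 ^ m) ^ (2 ^ ν) := by positivity
  have hchain : 2 ^ (m * d + (d * (2 * m) + (4 * ν + 4) * (2 * m)) + 2) *
      ((2 ^ m) ^ (2 ^ ν)) ≤
      2 ^ (m * d + (d * (2 * m) + (4 * ν + 4) * (2 * m)) + 1) * (2 ^ m) ^ (2 ^ ν) := by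
    calc 2 ^ (m * d + (d * (2 * m) + (4 * ν + 4) * (2 * m)) + 2) * ((2 ^ m) ^ (2 ^ ν))
        ≤ 2 ^ (m * (2 * m)) * (2 * J) :=
          Nat.mul_le_mul (Nat.pow_le_pow_right (by norm_num) hexp) hlow
      _ ≤ 2 ^ (m * (2 * m)) * (2 * B) := by
          exact Nat.mul_le_mul_left _ (Nat.mul_le_mul_left _ hle)
      _ = 2 * (B * (2 ^ m) ^ (2 * m)) := by rw [← pow_mul]; ring
      _ ≤ 2 * (2 ^ (m * d + (d * (2 * m) + (4 * ν + 4) * (2 * m))) * (2 ^ m) ^ (2 ^ ν)) :=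
          Nat.mul_le_mul_left _ hbad2
      _ = 2 ^ (m * d + (d * (2 * m) + (4 * ν + 4) * (2 * m)) + 1) * (2 ^ m) ^ (2 ^ ν) := by
          rw [pow_succ]; ring
  have := Nat.le_of_mul_le_mul_right hchain hV0
  have h5 := (Nat.pow_le_pow_iff_right (a := 2) (by norm_num)).1 this
  omega

end Pool.Agent.Helper869_BG
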